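import Pool.Agent.H27.L1.H68.GHK.Targets

/-!
Row NSP of the board ghk: non stationary phase in one variable.
-/

set_option autoImplicit false

namespace Pool.Agent.H27.L1.H57.GHK

open MeasureTheory Set Filter Topology

/-- Leibniz' rule as a bound -/
lemma leib_bd {f g : ℝ → ℂ} {n : ℕ} {s Kf Kg : ℝ} (hf : ContDiffAt ℝ n f s)
    (hg : ContDiffAt ℝ n g s) (h0 : 0 ≤ Kf) (h1 : ∀ i ≤ n, ‖iteratedDeriv i f s‖ ≤ Kf)
    (h2 : ∀ i ≤ n, ‖iteratedDeriv i g s‖ ≤ Kg) :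
    ‖iteratedDeriv n (f * g) s‖ ≤ 2 ^ n * (Kf * Kg) := by
  rw [iteratedDeriv_mul hf hg]
  refine (norm_sum_le _ _).trans ?_
  have h3 : ∀ i ∈ Finset.range (n + 1),
      ‖(n.choose i : ℂ) * iteratedDeriv i f s * iteratedDeriv (n - i) g s‖ ≤
        (n.choose i : ℝ) * (Kf * Kg) := by
    intro i hi
    rw [Finset.mem_range] at hi
    rw [norm_mul, norm_mul, Complex.norm_natCast, mul_assoc]
    refine mul_le_mul_of_nonneg_left ?_ (Nat.cast_nonneg _)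
    exact mul_le_mul (h1 i (by omega)) (h2 (n - i) (by omega)) (norm_nonneg _) h0
  refine (Finset.sum_le_sum h3).trans (le_of_eq ?_)
  rw [← Finset.sum_mul, ← Nat.cast_sum, Nat.sum_range_choose]
  push_cast
  ring

lemma sum_choose_le (n : ℕ) :
    ∑ i ∈ Finset.range (n + 1), ((n + 1).choose (i + 1) : ℝ) ≤ 2 ^ (n + 1) := by
  have h1 : ∑ i ∈ Finset.range (n + 1 + 1), ((n + 1).choose i : ℝ) = 2 ^ (n + 1) := by
    rw [← Nat.cast_sum, Nat.sum_range_choose]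
    push_cast
    rfl
  rw [Finset.sum_range_succ'] at h1
  have h2 : (0 : ℝ) ≤ ((n + 1).choose 0 : ℝ) := Nat.cast_nonneg _
  linarith

/-- the derivatives of the inverse -/
lemma inv_bd (A c : ℝ) (hc : 0 < c) (N : ℕ) : ∀ n ≤ N, ∃ K : ℝ, 0 ≤ K ∧ ∀ ψ : ℝ → ℂ,
    (∀ s : ℝ, |s| < 2 → ContDiffAt ℝ ((⊤ : ℕ∞) : WithTop ℕ∞) ψ s) →
    (∀ s : ℝ, |s| < 2 → c ≤ ‖ψ s‖) →
    (∀ k ≤ N, ∀ s : ℝ, |s| < 2 → ‖iteratedDeriv k ψ s‖ ≤ A) →
    ∀ k ≤ n, ∀ s : ℝ, |s| < 2 → ‖iteratedDeriv k (fun s => (ψ s)⁻¹) s‖ ≤ K := by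
  intro n
  induction n with
  | zero =>
    intro _
    refine ⟨c⁻¹, by positivity, ?_⟩
    intro ψ hψ hψc hψA k hk s hs
    obtain rfl : k = 0 := by omega
    rw [iteratedDeriv_zero, norm_inv]
    exact inv_anti₀ hc (hψc s hs)
  | succ n ih =>
    intro hn
    obtain ⟨K, hK, h⟩ := ih (by omega)
    refine ⟨K + 2 ^ (n + 1) * (|A| * K) / c, by positivity, ?_⟩
    intro ψ hψ hψc hψA k hk s hs
    have h1 := h ψ hψ hψc hψA
    have hX : 0 ≤ 2 ^ (n + 1) * (|A| * K) / c := by positivity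
    rcases Nat.lt_or_ge k (n + 1) with hk' | hk'
    · exact (h1 k (by omega) s hs).trans (by linarith)
    · obtain rfl : k = n + 1 := by omega
      have hne : ∀ r : ℝ, |r| < 2 → ψ r ≠ 0 := fun r hr h0 => by
        have := hψc r hr
        rw [h0, norm_zero] at this
        linarith
      have hev : (ψ * fun s => (ψ s)⁻¹) =ᶠ[𝓝 s] fun _ => (1 : ℂ) := by
        have ho : IsOpen {r : ℝ | |r| < 2} := isOpen_lt continuous_abs continuous_const
        filter_upwards [ho.mem_nhds hs] with r hr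
        exact mul_inv_cancel₀ (hne r hr)
      have e1 : iteratedDeriv (n + 1) (ψ * fun s => (ψ s)⁻¹) s = 0 := by
        rw [hev.iteratedDeriv_eq, iteratedDeriv_const]
        simp
      have hcd : ContDiffAt ℝ ((n + 1 : ℕ) : WithTop ℕ∞) ψ s :=
        (hψ s hs).of_le (by exact_mod_cast le_top)
      have hci : ContDiffAt ℝ ((n + 1 : ℕ) : WithTop ℕ∞) (fun s => (ψ s)⁻¹) s :=
        hcd.inv (hne s hs)
      rw [iteratedDeriv_mul hcd hci, Finset.sum_range_succ'] at e1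
      rw [Nat.choose_zero_right, Nat.cast_one, one_mul, iteratedDeriv_zero, Nat.sub_zero] at e1
      have e2 : ψ s * iteratedDeriv (n + 1) (fun s => (ψ s)⁻¹) s =
          -∑ i ∈ Finset.range (n + 1), ((n + 1).choose (i + 1) : ℂ) *
            iteratedDeriv (i + 1) ψ s *
              iteratedDeriv (n + 1 - (i + 1)) (fun s => (ψ s)⁻¹) s := by
        rw [eq_neg_iff_add_eq_zero, add_comm]
        exact e1
      have e3 : ‖ψ s‖ * ‖iteratedDeriv (n + 1) (fun s => (ψ s)⁻¹) s‖ ≤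
          2 ^ (n + 1) * (|A| * K) := by
        rw [← norm_mul, e2, norm_neg]
        refine (norm_sum_le _ _).trans ?_
        have h3 : ∀ i ∈ Finset.range (n + 1), ‖((n + 1).choose (i + 1) : ℂ) *
            iteratedDeriv (i + 1) ψ s * iteratedDeriv (n + 1 - (i + 1)) (fun s => (ψ s)⁻¹) s‖ ≤
              ((n + 1).choose (i + 1) : ℝ) * (|A| * K) := by
          intro i hi
          rw [Finset.mem_range] at hi
          rw [norm_mul, norm_mul, Complex.norm_natCast, mul_assoc]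
          refine mul_le_mul_of_nonneg_left ?_ (Nat.cast_nonneg _)
          exact mul_le_mul ((hψA (i + 1) (by omega) s hs).trans (le_abs_self A))
            (h1 _ (by omega) s hs) (norm_nonneg _) (abs_nonneg _)
        refine (Finset.sum_le_sum h3).trans ?_
        rw [← Finset.sum_mul]
        exact mul_le_mul_of_nonneg_right (sum_choose_le n) (by positivity)
      have e4 : ‖iteratedDeriv (n + 1) (fun s => (ψ s)⁻¹) s‖ ≤
          2 ^ (n + 1) * (|A| * K) / c := by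
        rw [le_div_iff₀ hc, mul_comm]
        exact (mul_le_mul_of_nonneg_right (hψc s hs) (norm_nonneg _)).trans e3
      linarith

lemma prod_smooth {ψ D : ℝ → ℂ}
    (hψ : ∀ s : ℝ, |s| < 2 → ContDiffAt ℝ ((⊤ : ℕ∞) : WithTop ℕ∞) ψ s)
    (h0 : ∀ s : ℝ, |s| < 2 → ψ s ≠ 0) (hD : ContDiff ℝ ((⊤ : ℕ∞) : WithTop ℕ∞) D)
    (hs : ∀ s : ℝ, 1 < |s| → D s = 0) :
    ContDiff ℝ ((⊤ : ℕ∞) : WithTop ℕ∞) ((fun s => (ψ s)⁻¹) * D) := by
  rw [contDiff_iff_contDiffAt]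
  intro x
  rcases lt_or_ge |x| 2 with hx | hx
  · exact ((hψ x hx).inv (h0 x hx)).mul hD.contDiffAt
  · have ho : IsOpen {r : ℝ | 1 < |r|} := isOpen_lt continuous_const continuous_abs
    have hev : ((fun s => (ψ s)⁻¹) * D) =ᶠ[𝓝 x] fun _ => (0 : ℂ) := by
      filter_upwards [ho.mem_nhds (show 1 < |x| by linarith)] with r hr
      show (ψ r)⁻¹ * D r = 0
      rw [hs r hr, mul_zero]
    exact contDiffAt_const.congr_of_eventuallyEq hev

lemma deriv_supp {F : ℝ → ℂ} (hF : ∀ s : ℝ, 1 < |s| → F s = 0) :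
    ∀ s : ℝ, 1 < |s| → deriv F s = 0 := by
  intro x hx
  have ho : IsOpen {r : ℝ | 1 < |r|} := isOpen_lt continuous_const continuous_abs
  have hev : F =ᶠ[𝓝 x] fun _ => (0 : ℂ) := by
    filter_upwards [ho.mem_nhds hx] with r hr
    exact hF r hr
  rw [hev.deriv_eq, deriv_const]

/-- the integral with the phase -/
noncomputable def J (Ψ : ℝ → ℝ) (D : ℝ → ℂ) : ℂ :=
  ∫ s in (-(3 / 2) : ℝ)..(3 / 2), D s * Complex.exp (Complex.I * (Ψ s : ℂ))

lemma norm_phase (x : ℝ) : ‖Complex.exp (Complex.I * (x : ℂ))‖ = 1 := by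
  rw [mul_comm, Complex.norm_exp_ofReal_mul_I]

lemma mem_uIcc {s : ℝ} (hs : s ∈ Set.uIcc (-(3 / 2) : ℝ) (3 / 2)) : |s| < 2 := by
  rw [Set.uIcc_of_le (by norm_num)] at hs
  rw [abs_lt]
  constructor
  · linarith [hs.1]
  · linarith [hs.2]

/-- integration by parts -/
lemma by_parts {Ψ : ℝ → ℝ} {ψ D : ℝ → ℂ} {G : ℝ} (hG : 0 < G)
    (hΨ : ∀ s : ℝ, |s| < 2 → ContDiffAt ℝ ((⊤ : ℕ∞) : WithTop ℕ∞) Ψ s)
    (hΨc : ContinuousOn (deriv Ψ) (Set.uIcc (-(3 / 2) : ℝ) (3 / 2)))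
    (hψ : ∀ s : ℝ, |s| < 2 → ContDiffAt ℝ ((⊤ : ℕ∞) : WithTop ℕ∞) ψ s)
    (hψe : ∀ s : ℝ, ψ s = ((deriv Ψ s / G : ℝ) : ℂ))
    (h0 : ∀ s : ℝ, |s| < 2 → ψ s ≠ 0) (hD : ContDiff ℝ ((⊤ : ℕ∞) : WithTop ℕ∞) D)
    (hs : ∀ s : ℝ, 1 < |s| → D s = 0) :
    G * ‖J Ψ D‖ = ‖J Ψ (deriv ((fun s => (ψ s)⁻¹) * D))‖ := by
  have hF := prod_smooth hψ h0 hD hs
  set F : ℝ → ℂ := (fun s => (ψ s)⁻¹) * D with hFdef
  have hFs : ∀ s : ℝ, 1 < |s| → F s = 0 := fun s h => by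
    show (ψ s)⁻¹ * D s = 0
    rw [hs s h, mul_zero]
  have hF1 : Differentiable ℝ F := hF.differentiable (by simp)
  have hF2 : Continuous (deriv F) := hF.continuous_deriv (by exact_mod_cast le_top)
  have hΨd : ∀ s : ℝ, |s| < 2 → HasDerivAt Ψ (deriv Ψ s) s := fun s h =>
    ((hΨ s h).differentiableAt (by simp)).hasDerivAt
  have hE : ∀ s ∈ Set.uIcc (-(3 / 2) : ℝ) (3 / 2),
      HasDerivAt (fun s : ℝ => Complex.exp (Complex.I * (Ψ s : ℂ)))
        (Complex.exp (Complex.I * (Ψ s : ℂ)) * (Complex.I * ((deriv Ψ s : ℝ) : ℂ))) s := fun s h =>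
    (((hΨd s (mem_uIcc h)).ofReal_comp).const_mul Complex.I).cexp
  have hEc : ContinuousOn (fun s : ℝ => Complex.exp (Complex.I * (Ψ s : ℂ)))
      (Set.uIcc (-(3 / 2) : ℝ) (3 / 2)) := fun s h => (hE s h).continuousAt.continuousWithinAt
  have hdc : ContinuousOn (fun s : ℝ => Complex.I * ((deriv Ψ s : ℝ) : ℂ))
      (Set.uIcc (-(3 / 2) : ℝ) (3 / 2)) :=
    continuousOn_const.mul (Complex.continuous_ofReal.comp_continuousOn hΨc)
  have key := intervalIntegral.integral_deriv_mul_eq_sub (a := (-(3 / 2) : ℝ)) (b := 3 / 2)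
    (u := F) (u' := deriv F) (v := fun s : ℝ => Complex.exp (Complex.I * (Ψ s : ℂ)))
    (v' := fun s : ℝ => Complex.exp (Complex.I * (Ψ s : ℂ)) * (Complex.I * ((deriv Ψ s : ℝ) : ℂ)))
    (fun s _ => (hF1 s).hasDerivAt) hE (hF2.intervalIntegrable _ _)
    (hEc.mul hdc).intervalIntegrable
  have h1 : F (3 / 2) = 0 := hFs _ (by rw [abs_of_pos (by norm_num)]; norm_num)
  have h2 : F (-(3 / 2)) = 0 := hFs _ (by rw [abs_neg, abs_of_pos (by norm_num)]; norm_num)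
  have i1 : IntervalIntegrable (fun x : ℝ => deriv F x * Complex.exp (Complex.I * (Ψ x : ℂ)))
      volume (-(3 / 2)) (3 / 2) := (hF2.continuousOn.mul hEc).intervalIntegrable
  have i2 : IntervalIntegrable (fun x : ℝ => F x * (Complex.exp (Complex.I * (Ψ x : ℂ)) *
      (Complex.I * ((deriv Ψ x : ℝ) : ℂ)))) volume (-(3 / 2)) (3 / 2) :=
    (hF1.continuous.continuousOn.mul (hEc.mul hdc)).intervalIntegrable
  rw [h1, h2, zero_mul, zero_mul, sub_zero, intervalIntegral.integral_add i1 i2] at key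
  have h3 : ∫ s in (-(3 / 2) : ℝ)..(3 / 2), F s *
      (Complex.exp (Complex.I * (Ψ s : ℂ)) * (Complex.I * ((deriv Ψ s : ℝ) : ℂ))) =
        (Complex.I * (G : ℂ)) * J Ψ D := by
    unfold J
    rw [← intervalIntegral.integral_const_mul]
    refine intervalIntegral.integral_congr fun s h => ?_
    have h4 := h0 s (mem_uIcc h)
    have h5 : ((deriv Ψ s : ℝ) : ℂ) = ψ s * (G : ℂ) := by
      rw [hψe s]
      push_cast
      rw [div_mul_cancel₀]
      exact_mod_cast hG.ne'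
    show (ψ s)⁻¹ * D s * (Complex.exp (Complex.I * (Ψ s : ℂ)) * (Complex.I * ((deriv Ψ s : ℝ) : ℂ))) =
      Complex.I * (G : ℂ) * (D s * Complex.exp (Complex.I * (Ψ s : ℂ)))
    rw [h5]
    field_simp
  rw [h3] at key
  have h6 : (Complex.I * (G : ℂ)) * J Ψ D = -J Ψ (deriv F) := by
    rw [eq_neg_iff_add_eq_zero, add_comm]
    exact key
  have h7 := congrArg norm h6
  rw [norm_neg, norm_mul, norm_mul, Complex.norm_I, one_mul, Complex.norm_real,
    Real.norm_of_nonneg hG.le] at h7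
  exact h7

lemma J_bd (Ψ : ℝ → ℝ) (D : ℝ → ℂ) (K : ℝ) (hD : ∀ s : ℝ, |s| < 2 → ‖D s‖ ≤ K) :
    ‖J Ψ D‖ ≤ 3 * K := by
  have h1 := intervalIntegral.norm_integral_le_of_norm_le_const (a := (-(3 / 2) : ℝ))
    (b := 3 / 2) (f := fun s => D s * Complex.exp (Complex.I * (Ψ s : ℂ))) (C := K) (fun s hs => by
      rw [norm_mul, norm_phase, mul_one]
      exact hD s (mem_uIcc (Set.uIoc_subset_uIcc hs)))
  have h2 : |(3 / 2 : ℝ) - -(3 / 2)| = 3 := by norm_num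
  rw [h2] at h1
  unfold J
  linarith

/-- the derivatives of `ofReal ∘ f` -/
lemma norm_iter_ofReal {f : ℝ → ℝ} {s : ℝ}
    (hf : ContDiffAt ℝ ((⊤ : ℕ∞) : WithTop ℕ∞) f s) (k : ℕ) :
    ‖iteratedDeriv k (fun r => (f r : ℂ)) s‖ = |iteratedDeriv k f s| := by
  have h1 := Complex.ofRealLI.norm_iteratedFDeriv_comp_left hf (i := k)
    (by exact_mod_cast le_top)
  rw [norm_iteratedFDeriv_eq_norm_iteratedDeriv, norm_iteratedFDeriv_eq_norm_iteratedDeriv,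
    Real.norm_eq_abs] at h1
  exact h1

theorem pf_NSP : Pool.Agent.H27.L1.H68.GHK.T_NSP := by
  intro N A c hc
  obtain ⟨Kg, hKg, hinv⟩ := inv_bd A c hc N N le_rfl
  have hiter : ∀ j ≤ N, ∀ K : ℝ, 0 ≤ K → ∃ C : ℝ, 0 ≤ C ∧
      ∀ (Ψ : ℝ → ℝ) (ψ D : ℝ → ℂ) (G : ℝ), 0 < G →
      (∀ s : ℝ, |s| < 2 → ContDiffAt ℝ ((⊤ : ℕ∞) : WithTop ℕ∞) Ψ s) →
      ContinuousOn (deriv Ψ) (Set.uIcc (-(3 / 2) : ℝ) (3 / 2)) →
      (∀ s : ℝ, |s| < 2 → ContDiffAt ℝ ((⊤ : ℕ∞) : WithTop ℕ∞) ψ s) →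
      (∀ s : ℝ, ψ s = ((deriv Ψ s / G : ℝ) : ℂ)) →
      (∀ s : ℝ, |s| < 2 → c ≤ ‖ψ s‖) →
      (∀ k ≤ N, ∀ s : ℝ, |s| < 2 → ‖iteratedDeriv k ψ s‖ ≤ A) →
      ContDiff ℝ ((⊤ : ℕ∞) : WithTop ℕ∞) D → (∀ s : ℝ, 1 < |s| → D s = 0) →
      (∀ k ≤ j, ∀ s : ℝ, |s| < 2 → ‖iteratedDeriv k D s‖ ≤ K) → G ^ j * ‖J Ψ D‖ ≤ C := by
    intro j
    induction j with
    | zero =>
      intro _ K hK
      refine ⟨3 * K, by positivity, ?_⟩
      intro Ψ ψ D G _ _ _ _ _ _ _ _ _ hDK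
      rw [pow_zero, one_mul]
      refine J_bd Ψ D K fun s hs => ?_
      have := hDK 0 le_rfl s hs
      rwa [iteratedDeriv_zero] at this
    | succ j ih =>
      intro hj K hK
      obtain ⟨C, hC, h⟩ := ih (by omega) (2 ^ (j + 1) * (Kg * K)) (by positivity)
      refine ⟨C, hC, ?_⟩
      intro Ψ ψ D G hG hΨ hΨc hψ hψe hψc hψA hD hs hDK
      have h0 : ∀ s : ℝ, |s| < 2 → ψ s ≠ 0 := fun r hr h0 => by
        have := hψc r hr
        rw [h0, norm_zero] at this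
        linarith
      have hF := prod_smooth hψ h0 hD hs
      have hFs : ∀ s : ℝ, 1 < |s| → ((fun s => (ψ s)⁻¹) * D) s = 0 := fun s h => by
        show (ψ s)⁻¹ * D s = 0
        rw [hs s h, mul_zero]
      have h1 := h Ψ ψ (deriv ((fun s => (ψ s)⁻¹) * D)) G hG hΨ hΨc hψ hψe hψc hψA
        (contDiff_infty_iff_deriv.1 hF).2 (deriv_supp hFs) ?_
      · rw [← by_parts hG hΨ hΨc hψ hψe h0 hD hs] at h1
        calc G ^ (j + 1) * ‖J Ψ D‖ = G ^ j * (G * ‖J Ψ D‖) := by ring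
          _ ≤ C := h1
      · intro k hk s hs2
        rw [← iteratedDeriv_succ']
        have hcd : ContDiffAt ℝ ((k + 1 : ℕ) : WithTop ℕ∞) ψ s :=
          (hψ s hs2).of_le (by exact_mod_cast le_top)
        refine (leib_bd (hcd.inv (h0 s hs2)) (hD.contDiffAt.of_le (by exact_mod_cast le_top)) hKg
          (fun i hi => hinv ψ hψ hψc hψA i (by omega) s hs2)
          (fun i hi => hDK i (by omega) s hs2)).trans ?_
        refine mul_le_mul_of_nonneg_right ?_ (by positivity)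
        exact pow_le_pow_right₀ (by norm_num) (by omega)
  obtain ⟨C, hC, hmain⟩ := hiter N le_rfl |A| (abs_nonneg _)
  refine ⟨2 ^ N * (C + 3 * |A|) + 1, by positivity, ?_⟩
  intro h Ψ G hG hh hΨ hsupp hhA hΨc hΨA
  -- the integral over the line
  have hJ : ∫ s : ℝ, h s * Complex.exp (Complex.I * (Ψ s : ℂ)) = J Ψ h := by
    unfold J
    rw [intervalIntegral.integral_of_le (by norm_num)]
    symm
    refine setIntegral_eq_integral_of_forall_compl_eq_zero fun s hs => ?_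
    have : 1 ≤ |s| := by
      by_contra hc'
      rw [not_le, abs_lt] at hc'
      exact hs ⟨by linarith [hc'.1], by linarith [hc'.2]⟩
    rw [hsupp s this, zero_mul]
  rw [hJ]
  have hb0 : ‖J Ψ h‖ ≤ 3 * |A| := J_bd Ψ h |A| fun s hs => by
    have := hhA 0 (Nat.zero_le _) s hs
    rw [iteratedDeriv_zero] at this
    exact this.trans (le_abs_self A)
  have hpos : 0 < (1 + G) ^ N := by positivity
  rw [← div_eq_mul_inv, le_div_iff₀ hpos]
  rcases le_or_gt G 1 with hG1 | hG1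
  · have h1 : (1 + G) ^ N ≤ 2 ^ N := pow_le_pow_left₀ (by linarith) (by linarith) N
    calc ‖J Ψ h‖ * (1 + G) ^ N ≤ (3 * |A|) * 2 ^ N :=
          mul_le_mul hb0 h1 (by positivity) (by positivity)
      _ ≤ 2 ^ N * (C + 3 * |A|) + 1 := by
          have : 0 ≤ 2 ^ N * C := by positivity
          nlinarith
  · have hG0 : 0 < G := by linarith
    have ho : IsOpen (Set.Ioo (-2 : ℝ) 2) := isOpen_Ioo
    have hmem : ∀ s : ℝ, |s| < 2 → s ∈ Set.Ioo (-2 : ℝ) 2 := fun s hs => abs_lt.1 hs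
    have hΨat : ∀ s : ℝ, |s| < 2 → ContDiffAt ℝ ((⊤ : ℕ∞) : WithTop ℕ∞) Ψ s := fun s hs =>
      hΨ.contDiffAt (ho.mem_nhds (hmem s hs))
    have hdΨ : ContDiffOn ℝ ((⊤ : ℕ∞) : WithTop ℕ∞) (deriv Ψ) (Set.Ioo (-2 : ℝ) 2) :=
      hΨ.deriv_of_isOpen ho (by simp)
    have hdat : ∀ s : ℝ, |s| < 2 →
        ContDiffAt ℝ ((⊤ : ℕ∞) : WithTop ℕ∞) (fun r => deriv Ψ r / G) s := fun s hs =>
      (hdΨ.contDiffAt (ho.mem_nhds (hmem s hs))).div_const G
    have hψat : ∀ s : ℝ, |s| < 2 → ContDiffAt ℝ ((⊤ : ℕ∞) : WithTop ℕ∞)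
        (fun r => ((deriv Ψ r / G : ℝ) : ℂ)) s := fun s hs =>
      Complex.ofRealCLM.contDiff.contDiffAt.comp s (hdat s hs)
    have h1 := hmain Ψ (fun r => ((deriv Ψ r / G : ℝ) : ℂ)) h G hG0 hΨat
      (hdΨ.continuousOn.mono fun s hs => hmem s (mem_uIcc hs)) hψat (fun _ => rfl) ?_ ?_ hh
      (fun s hs => hsupp s hs.le)
      (fun k hk s hs => (hhA k hk s hs).trans (le_abs_self A))
    · have h2 : (1 + G) ^ N ≤ 2 ^ N * G ^ N := by
        rw [← mul_pow]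
        exact pow_le_pow_left₀ (by linarith) (by linarith) N
      calc ‖J Ψ h‖ * (1 + G) ^ N ≤ ‖J Ψ h‖ * (2 ^ N * G ^ N) :=
            mul_le_mul_of_nonneg_left h2 (norm_nonneg _)
        _ = 2 ^ N * (G ^ N * ‖J Ψ h‖) := by ring
        _ ≤ 2 ^ N * C := mul_le_mul_of_nonneg_left h1 (by positivity)
        _ ≤ _ := by
            have : 0 ≤ 2 ^ N * (3 * |A|) := by positivity
            nlinarith
    · intro s hs
      rw [Complex.norm_real, Real.norm_eq_abs, abs_div, abs_of_pos hG0, le_div_iff₀ hG0]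
      exact hΨc s hs
    · intro k hk s hs
      rw [norm_iter_ofReal (hdat s hs) k]
      have h3 : iteratedDeriv k (fun r => deriv Ψ r / G) s = iteratedDeriv (k + 1) Ψ s / G := by
        rw [iteratedDeriv_succ']
        simp only [div_eq_mul_inv]
        rw [iteratedDeriv_mul_const_field]
      rw [h3, abs_div, abs_of_pos hG0, div_le_iff₀ hG0]
      exact hΨA k hk s hs

end Pool.Agent.H27.L1.H57.GHK
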